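import Pool.Agent.H21.GKZ.Main

/-!
# An explicit spanning set of the expected size

For `m ≥ 2` let `d` be the dimension of the space of the cusp forms of weight `k = 2 m` for `SL_2(ℤ)`. The rational span of the
`m - 1` double zeta values `ζ(k - s, s)`, `s = 1, 3, …, k - 3`, is also the span of the `m - 1 - d` numbers `ζ(k)` and
`ζ(k - s, s)`, `s = 2 d + 3, 2 d + 5, …, k - 3`. So the answer to the question is positive for `k` if and only if these
numbers are linearly independent over the rational numbers.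

The proof contains the relations of Gangl, Kaneko and Zagier, for real double zeta values, and the fact that the first
coefficients of an even period polynomial can be prescribed arbitrarily.
-/

set_option autoImplicit false

namespace Pool.Agent.Results.MP_9206b6_nt.ExplicitBasis

/-- the double zeta value `ζ(2 i + 3, 2 m - 2 i - 3)` -/
noncomputable def dz (m i : ℕ) : ℝ :=
  ∑' p : ℕ × ℕ, (1 : ℝ) / ((((p.1 + p.2 + 2 : ℕ) : ℝ) ^ (2 * i + 3)) * (((p.2 + 1 : ℕ) : ℝ) ^ (2 * m - 2 * i - 3)))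

/-- `ζ(k)` -/
noncomputable def zeta (k : ℕ) : ℝ := ∑' n : ℕ, (1 : ℝ) / ((n + 1 : ℕ) : ℝ) ^ k

/-- the dimension of the space of cusp forms of weight `2 m` for `SL_2(ℤ)` -/
noncomputable def cusp (m : ℕ) : ℕ := Module.finrank ℂ (CuspForm (CongruenceSubgroup.Gamma 1) (2 * (m : ℤ)))

/-- **Theorem.** -/
theorem result (m : ℕ) (hm : 2 ≤ m) :
    cusp m + 2 ≤ m ∧
    Submodule.span ℚ (Set.range fun i : Fin (m - 1) => dz m i) =
      Submodule.span ℚ ({zeta (2 * m)} ∪ Set.range fun i : Fin (m - 2 - cusp m) => dz m i) ∧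
    (Module.finrank ℚ (Submodule.span ℚ (Set.range fun i : Fin (m - 1) => dz m i)) + cusp m = m - 1 ↔
      LinearIndependent ℚ fun o : Option (Fin (m - 2 - cusp m)) => o.elim (zeta (2 * m)) fun i => dz m i) := by
  obtain ⟨h, rfl⟩ : ∃ h, m = h + 2 := ⟨m - 2, by omega⟩
  have h1 : cusp (h + 2) + 1 = Pool.Agent.H21.Ech.mu h := Pool.Agent.H21.GKZ.finrank_cusp h
  have h2 : Pool.Agent.H21.Ech.mu h ≤ h + 1 := by unfold Pool.Agent.H21.Ech.mu; omega
  have h3 := Pool.Agent.H21.GKZ.span_eq h
  rw [show h + 1 - Pool.Agent.H21.Ech.mu h = h + 2 - 2 - cusp (h + 2) by omega] at h3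
  have h4 : Submodule.span ℚ (Set.range fun i : Fin (h + 2 - 1) => dz (h + 2) i) =
      Submodule.span ℚ ({zeta (2 * (h + 2))} ∪ Set.range fun i : Fin (h + 2 - 2 - cusp (h + 2)) => dz (h + 2) i) := h3
  refine ⟨by omega, h4, ?_⟩
  have h5 : (Set.range fun o : Option (Fin (h + 2 - 2 - cusp (h + 2))) =>
      o.elim (zeta (2 * (h + 2))) fun i => dz (h + 2) i) =
      {zeta (2 * (h + 2))} ∪ Set.range fun i : Fin (h + 2 - 2 - cusp (h + 2)) => dz (h + 2) i := by
    ext x
    constructor
    · rintro ⟨o, rfl⟩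
      rcases o with _ | i
      · exact Or.inl rfl
      · exact Or.inr ⟨i, rfl⟩
    · rintro (rfl | ⟨i, rfl⟩)
      · exact ⟨none, rfl⟩
      · exact ⟨some i, rfl⟩
  rw [linearIndependent_iff_card_eq_finrank_span, Set.finrank, h5, ← h4, Fintype.card_option,
    Fintype.card_fin]
  omega

end Pool.Agent.Results.MP_9206b6_nt.ExplicitBasis
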